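import Pool.Agent.helper43.MS.Defs

/-!
# Module R1: Rellich's theorem in `ℝ^m`
-/

open MeasureTheory Set Filter Topology
open scoped ContDiff ENNReal

namespace Pool.Agent.helper43.MS

namespace R1

/-- Cauchy-Schwarz against the constant function. -/
lemma sq_integral_le {α : Type*} [MeasurableSpace α] (μ : Measure α) [IsFiniteMeasure μ]
    (g : α → ℝ) (hg : Integrable g μ) (hg2 : Integrable (fun x => g x ^ 2) μ) :
    (∫ x, g x ∂μ) ^ 2 ≤ μ.real univ * ∫ x, g x ^ 2 ∂μ := by
  set V := μ.real univ with hV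
  set I := ∫ x, g x ∂μ with hI
  rcases (measureReal_nonneg (μ := μ) (s := univ)).eq_or_lt with h0 | h0
  · have : μ = 0 := by
      rw [← Measure.measure_univ_eq_zero]
      have := (measureReal_eq_zero_iff (μ := μ) (s := univ)).mp h0.symm
      exact this
    simp [hI, this]
  · have h1 : ∫ x, (V * g x - I) ^ 2 ∂μ = V ^ 2 * (∫ x, g x ^ 2 ∂μ) - 2 * V * I * I + I ^ 2 * V := by
      have e : ∀ x, (V * g x - I) ^ 2 = V ^ 2 * g x ^ 2 - 2 * V * I * g x + I ^ 2 := by
        intro x; ring
      simp_rw [e]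
      rw [integral_add (f := fun x => V ^ 2 * g x ^ 2 - 2 * V * I * g x) (g := fun _ => I ^ 2)
          ((hg2.const_mul _).sub (hg.const_mul _)) (integrable_const _),
        integral_sub (f := fun x => V ^ 2 * g x ^ 2) (g := fun x => 2 * V * I * g x)
          (hg2.const_mul _) (hg.const_mul _), integral_const_mul, integral_const_mul,
        integral_const]
      simp only [smul_eq_mul, ← hV, ← hI]
      ring
    have h2 : 0 ≤ ∫ x, (V * g x - I) ^ 2 ∂μ := integral_nonneg fun x => sq_nonneg _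
    rw [h1] at h2
    have h3 : 0 ≤ V * (V * (∫ x, g x ^ 2 ∂μ) - I ^ 2) := by nlinarith
    have h4 := nonneg_of_mul_nonneg_right h3 h0
    linarith

variable {m : ℕ}

lemma sub_sq_le (f : E m → ℝ) (hf : ContDiff ℝ 1 f) (x z : E m) :
    (f (x + z) - f x) ^ 2 ≤ ‖z‖ ^ 2 * ∫ t in Ioc (0 : ℝ) 1, ‖fderiv ℝ f (x + t • z)‖ ^ 2 := by
  have hd : Continuous (fderiv ℝ f) := hf.continuous_fderiv (by norm_num)
  have hc : Continuous fun t : ℝ => fderiv ℝ f (x + t • z) z := by
    have : Continuous fun t : ℝ => fderiv ℝ f (x + t • z) := hd.comp (by fun_prop)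
    exact this.clm_apply continuous_const
  have h1 : ∫ t in (0 : ℝ)..1, fderiv ℝ f (x + t • z) z = f (x + z) - f x := by
    have := intervalIntegral.integral_eq_sub_of_hasDerivAt (f := fun t : ℝ => f (x + t • z))
      (f' := fun t : ℝ => fderiv ℝ f (x + t • z) z) (a := 0) (b := 1) ?_ (hc.intervalIntegrable _ _)
    · rw [this]; simp
    · intro t _
      have h2 : HasFDerivAt f (fderiv ℝ f (x + t • z)) (x + t • z) :=
        (hf.differentiable (by norm_num)).differentiableAt.hasFDerivAt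
      have h3 : HasDerivAt (fun t : ℝ => x + t • z) z t := by
        simpa using ((hasDerivAt_id t).smul_const z).const_add x
      exact h2.comp_hasDerivAt t h3
  rw [← h1, intervalIntegral.integral_of_le (by norm_num)]
  have hI1 : IntegrableOn (fun t : ℝ => fderiv ℝ f (x + t • z) z) (Ioc 0 1) :=
    (hc.integrableOn_Icc).mono_set Ioc_subset_Icc_self
  have hI2 : IntegrableOn (fun t : ℝ => (fderiv ℝ f (x + t • z) z) ^ 2) (Ioc 0 1) :=
    ((hc.pow 2).integrableOn_Icc).mono_set Ioc_subset_Icc_self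
  have hc3 : Continuous fun t : ℝ => ‖fderiv ℝ f (x + t • z)‖ ^ 2 :=
    ((hd.comp (by fun_prop : Continuous fun t : ℝ => x + t • z)).norm).pow 2
  have hI3 : IntegrableOn (fun t : ℝ => ‖fderiv ℝ f (x + t • z)‖ ^ 2) (Ioc 0 1) :=
    (hc3.integrableOn_Icc).mono_set Ioc_subset_Icc_self
  have h2 := sq_integral_le (volume.restrict (Ioc (0 : ℝ) 1)) _ hI1 hI2
  have h3 : (volume.restrict (Ioc (0 : ℝ) 1)).real univ = 1 := by
    simp
  rw [h3, one_mul] at h2
  refine h2.trans ?_
  rw [← integral_const_mul]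
  refine setIntegral_mono hI2 (hI3.const_mul _) fun t => ?_
  have h4 := (fderiv ℝ f (x + t • z)).le_opNorm z
  rw [← mul_pow, ← sq_abs (fderiv ℝ f (x + t • z) z)]
  refine pow_le_pow_left₀ (abs_nonneg _) ?_ 2
  rw [Real.norm_eq_abs] at h4
  linarith

/-- translation estimate -/
lemma translate_le (f : E m → ℝ) (hf : ContDiff ℝ 1 f) (z : E m) :
    ∫⁻ x, ENNReal.ofReal ((f (x + z) - f x) ^ 2) ≤
      ENNReal.ofReal (‖z‖ ^ 2) * ∫⁻ x, ENNReal.ofReal (‖fderiv ℝ f x‖ ^ 2) := by
  have hd : Continuous (fderiv ℝ f) := hf.continuous_fderiv (by norm_num)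
  have hm : Measurable fun p : E m × ℝ => ENNReal.ofReal (‖fderiv ℝ f (p.1 + p.2 • z)‖ ^ 2) := by
    refine ENNReal.measurable_ofReal.comp ?_
    refine Continuous.measurable ?_
    exact ((hd.comp (by fun_prop : Continuous fun p : E m × ℝ => p.1 + p.2 • z)).norm).pow 2
  calc ∫⁻ x, ENNReal.ofReal ((f (x + z) - f x) ^ 2)
      ≤ ∫⁻ x, ENNReal.ofReal (‖z‖ ^ 2) *
          ∫⁻ t in Ioc (0 : ℝ) 1, ENNReal.ofReal (‖fderiv ℝ f (x + t • z)‖ ^ 2) := by
        refine lintegral_mono fun x => ?_
        have hc3 : Continuous fun t : ℝ => ‖fderiv ℝ f (x + t • z)‖ ^ 2 :=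
          ((hd.comp (by fun_prop : Continuous fun t : ℝ => x + t • z)).norm).pow 2
        have hI3 : IntegrableOn (fun t : ℝ => ‖fderiv ℝ f (x + t • z)‖ ^ 2) (Ioc 0 1) :=
          (hc3.integrableOn_Icc).mono_set Ioc_subset_Icc_self
        rw [← ofReal_integral_eq_lintegral_ofReal hI3 (ae_of_all _ fun t => by positivity),
          ← ENNReal.ofReal_mul (by positivity)]
        exact ENNReal.ofReal_le_ofReal (sub_sq_le f hf x z)
    _ = ENNReal.ofReal (‖z‖ ^ 2) * ∫⁻ t in Ioc (0 : ℝ) 1,
          ∫⁻ x, ENNReal.ofReal (‖fderiv ℝ f (x + t • z)‖ ^ 2) := by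
        rw [lintegral_const_mul _ (hm.lintegral_prod_right'), lintegral_lintegral_swap]
        exact hm.aemeasurable
    _ = ENNReal.ofReal (‖z‖ ^ 2) * ∫⁻ _t in Ioc (0 : ℝ) 1,
          ∫⁻ x, ENNReal.ofReal (‖fderiv ℝ f x‖ ^ 2) := by
        congr 1
        refine lintegral_congr fun t => ?_
        exact lintegral_add_right_eq_self (fun x => ENNReal.ofReal (‖fderiv ℝ f x‖ ^ 2)) (t • z)
    _ = _ := by
        rw [setLIntegral_const]
        simp

/-- averages over balls -/
noncomputable def av (h : ℝ) (f : E m → ℝ) (x : E m) : ℝ :=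
  (volume.real (Metric.ball (0 : E m) h))⁻¹ * ∫ z in Metric.ball (0 : E m) h, f (x + z)

lemma vpos {h : ℝ} (hh : 0 < h) : 0 < volume.real (Metric.ball (0 : E m) h) :=
  ENNReal.toReal_pos (Metric.measure_ball_pos volume _ hh).ne' measure_ball_lt_top.ne

lemma intOn (g : E m → ℝ) (hg : Continuous g) (h : ℝ) :
    IntegrableOn g (Metric.ball (0 : E m) h) :=
  (hg.continuousOn.integrableOn_compact (isCompact_closedBall (0 : E m) h)).mono_set
    Metric.ball_subset_closedBall

/-- Jensen for the averages -/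
lemma av_sq_le {h : ℝ} (hh : 0 < h) (g : E m → ℝ) (hg : Continuous g) :
    ((volume.real (Metric.ball (0 : E m) h))⁻¹ * ∫ z in Metric.ball (0 : E m) h, g z) ^ 2 ≤
      (volume.real (Metric.ball (0 : E m) h))⁻¹ * ∫ z in Metric.ball (0 : E m) h, g z ^ 2 := by
  have hv := vpos (m := m) hh
  have : IsFiniteMeasure (volume.restrict (Metric.ball (0 : E m) h)) :=
    ⟨by rw [Measure.restrict_apply_univ]; exact measure_ball_lt_top⟩
  have h1 := sq_integral_le (volume.restrict (Metric.ball (0 : E m) h)) g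
    (intOn g hg h) (intOn _ (hg.pow 2) h)
  have h2 : (volume.restrict (Metric.ball (0 : E m) h)).real univ
      = volume.real (Metric.ball (0 : E m) h) := by
    simp [Measure.real]
  rw [h2] at h1
  rw [mul_pow]
  calc _ ≤ ((volume.real (Metric.ball (0 : E m) h))⁻¹) ^ 2 *
        (volume.real (Metric.ball (0 : E m) h) * ∫ z in Metric.ball (0 : E m) h, g z ^ 2) :=
        mul_le_mul_of_nonneg_left h1 (by positivity)
    _ = _ := by
        field_simp

lemma sub_av_sq_le {h : ℝ} (hh : 0 < h) (f : E m → ℝ) (hf : Continuous f) (x : E m) :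
    (f x - av h f x) ^ 2 ≤ (volume.real (Metric.ball (0 : E m) h))⁻¹ *
      ∫ z in Metric.ball (0 : E m) h, (f (x + z) - f x) ^ 2 := by
  have hv := vpos (m := m) hh
  have h1 := av_sq_le hh (fun z => f (x + z) - f x) (by fun_prop)
  have h2 : ∫ z in Metric.ball (0 : E m) h, (f (x + z) - f x)
      = (∫ z in Metric.ball (0 : E m) h, f (x + z))
        - volume.real (Metric.ball (0 : E m) h) * f x := by
    rw [integral_sub (intOn _ (by fun_prop) h) (intOn _ (by fun_prop) h), setIntegral_const]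
    simp
  rw [h2] at h1
  refine le_trans (le_of_eq ?_) h1
  unfold av
  field_simp
  ring

/-- `‖f - av f‖² ≤ h² ‖Df‖²` -/
lemma lintegral_sub_av {h : ℝ} (hh : 0 < h) (f : E m → ℝ) (hf : ContDiff ℝ 1 f) :
    ∫⁻ x, ENNReal.ofReal ((f x - av h f x) ^ 2) ≤
      ENNReal.ofReal (h ^ 2) * ∫⁻ x, ENNReal.ofReal (‖fderiv ℝ f x‖ ^ 2) := by
  have hv := vpos (m := m) hh
  have hc := hf.continuous
  set v := volume.real (Metric.ball (0 : E m) h) with hvdef
  set D := ∫⁻ x, ENNReal.ofReal (‖fderiv ℝ f x‖ ^ 2) with hD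
  have hm : Measurable fun p : E m × E m => ENNReal.ofReal ((f (p.1 + p.2) - f p.1) ^ 2) := by
    refine ENNReal.measurable_ofReal.comp (Continuous.measurable ?_)
    fun_prop
  calc ∫⁻ x, ENNReal.ofReal ((f x - av h f x) ^ 2)
      ≤ ∫⁻ x, ENNReal.ofReal v⁻¹ * ∫⁻ z in Metric.ball (0 : E m) h,
          ENNReal.ofReal ((f (x + z) - f x) ^ 2) := by
        refine lintegral_mono fun x => ?_
        rw [← ofReal_integral_eq_lintegral_ofReal (intOn _ (by fun_prop) h)
          (ae_of_all _ fun t => by positivity), ← ENNReal.ofReal_mul (by positivity)]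
        exact ENNReal.ofReal_le_ofReal (sub_av_sq_le hh f hc x)
    _ = ENNReal.ofReal v⁻¹ * ∫⁻ z in Metric.ball (0 : E m) h,
          ∫⁻ x, ENNReal.ofReal ((f (x + z) - f x) ^ 2) := by
        rw [lintegral_const_mul _ (hm.lintegral_prod_right'), lintegral_lintegral_swap]
        exact hm.aemeasurable
    _ ≤ ENNReal.ofReal v⁻¹ * ∫⁻ _z in Metric.ball (0 : E m) h, ENNReal.ofReal (h ^ 2) * D := by
        refine mul_le_mul' (le_refl _) ?_
        refine setLIntegral_mono' (measurableSet_ball (α := E m)) fun z hz => ?_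
        refine (translate_le f hf z).trans ?_
        gcongr
        rw [mem_ball_zero_iff] at hz
        exact hz.le
    _ = ENNReal.ofReal (h ^ 2) * D := by
        rw [setLIntegral_const]
        have e : volume (Metric.ball (0 : E m) h) = ENNReal.ofReal v := by
          rw [hvdef, Measure.real, ENNReal.ofReal_toReal measure_ball_lt_top.ne]
        rw [e, mul_comm, mul_assoc, ← ENNReal.ofReal_mul hv.le, mul_inv_cancel₀ hv.ne']
        simp

lemma sq_integrable (g : E m → ℝ) (hg : Continuous g) (hs : HasCompactSupport g) :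
    Integrable fun x => g x ^ 2 := by
  refine Continuous.integrable_of_hasCompactSupport (hg.pow 2) ?_
  have : (fun x => g x ^ 2) = g * g := by ext x; simp [sq]
  rw [this]
  exact hs.mul_left

lemma fderiv_sq_integrable (f : E m → ℝ) (hf : ContDiff ℝ 1 f) (hs : HasCompactSupport f) :
    Integrable fun x => ‖fderiv ℝ f x‖ ^ 2 := by
  have hd : Continuous (fderiv ℝ f) := hf.continuous_fderiv (by norm_num)
  refine Continuous.integrable_of_hasCompactSupport (hd.norm.pow 2) ?_
  have h1 := (hs.fderiv (𝕜 := ℝ)).norm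
  have : (fun x => ‖fderiv ℝ f x‖ ^ 2) = (fun x => ‖fderiv ℝ f x‖) * fun x => ‖fderiv ℝ f x‖ := by
    ext x; simp [sq]
  rw [this]
  exact h1.mul_left

lemma diff_compact (f : E m → ℝ) (hs : HasCompactSupport f) (a b : E m) :
    HasCompactSupport fun z => f (a + z) - f (b + z) := by
  have h1 : HasCompactSupport fun z => f (a + z) := hs.comp_homeomorph (Homeomorph.addLeft a)
  have h2 : HasCompactSupport fun z => f (b + z) := hs.comp_homeomorph (Homeomorph.addLeft b)
  exact h1.sub h2

lemma translate_real (f : E m → ℝ) (hf : ContDiff ℝ 1 f) (hs : HasCompactSupport f) (z : E m) :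
    ∫ x, (f (x + z) - f x) ^ 2 ≤ ‖z‖ ^ 2 * ∫ x, ‖fderiv ℝ f x‖ ^ 2 := by
  have h1 := translate_le f hf z
  rw [← ofReal_integral_eq_lintegral_ofReal (fderiv_sq_integrable f hf hs)
    (ae_of_all _ fun t => by positivity), ← ENNReal.ofReal_mul (by positivity)] at h1
  have hc := hf.continuous
  rw [integral_eq_lintegral_of_nonneg_ae (ae_of_all _ fun t => by positivity)
    (Continuous.aestronglyMeasurable (by fun_prop))]
  refine ENNReal.toReal_le_of_le_ofReal ?_ h1
  have : 0 ≤ ∫ x, ‖fderiv ℝ f x‖ ^ 2 := integral_nonneg fun x => by positivity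
  positivity

lemma av_lip {h : ℝ} (hh : 0 < h) (f : E m → ℝ) (hf : ContDiff ℝ 1 f) (hs : HasCompactSupport f)
    (x y : E m) :
    (av h f x - av h f y) ^ 2 ≤ (volume.real (Metric.ball (0 : E m) h))⁻¹ *
      (‖x - y‖ ^ 2 * ∫ x, ‖fderiv ℝ f x‖ ^ 2) := by
  have hv := vpos (m := m) hh
  have hc := hf.continuous
  have h1 := av_sq_le hh (fun z => f (x + z) - f (y + z)) (by fun_prop)
  have h2 : ∫ z in Metric.ball (0 : E m) h, (f (x + z) - f (y + z))
      = (∫ z in Metric.ball (0 : E m) h, f (x + z)) - ∫ z in Metric.ball (0 : E m) h, f (y + z) :=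
    integral_sub (intOn _ (by fun_prop) h) (intOn _ (by fun_prop) h)
  rw [h2, mul_sub] at h1
  refine h1.trans (mul_le_mul_of_nonneg_left ?_ (by positivity))
  calc ∫ z in Metric.ball (0 : E m) h, (f (x + z) - f (y + z)) ^ 2
      ≤ ∫ z, (f (x + z) - f (y + z)) ^ 2 :=
        setIntegral_le_integral (sq_integrable _ (by fun_prop) (diff_compact f hs x y))
          (ae_of_all _ fun t => by positivity)
    _ = ∫ z, (f (z + (x - y)) - f z) ^ 2 := by
        rw [← integral_add_left_eq_self (fun z => (f (z + (x - y)) - f z) ^ 2) y]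
        refine integral_congr_ae (ae_of_all _ fun z => ?_)
        simp only
        rw [show y + z + (x - y) = x + z by abel]
    _ ≤ _ := translate_real f hf hs (x - y)

lemma av_bound {h : ℝ} (hh : 0 < h) (f : E m → ℝ) (hf : Continuous f) (hs : HasCompactSupport f)
    (x : E m) :
    (av h f x) ^ 2 ≤ (volume.real (Metric.ball (0 : E m) h))⁻¹ * ∫ x, f x ^ 2 := by
  have hv := vpos (m := m) hh
  have h1 := av_sq_le hh (fun z => f (x + z)) (by fun_prop)
  refine h1.trans (mul_le_mul_of_nonneg_left ?_ (by positivity))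
  have hs' : HasCompactSupport fun z => f (x + z) := hs.comp_homeomorph (Homeomorph.addLeft x)
  calc ∫ z in Metric.ball (0 : E m) h, f (x + z) ^ 2 ≤ ∫ z, f (x + z) ^ 2 :=
        setIntegral_le_integral (sq_integrable _ (by fun_prop) hs')
          (ae_of_all _ fun t => by positivity)
    _ = _ := integral_add_left_eq_self (fun z => f z ^ 2) x

lemma av_eq_zero {h : ℝ} {K : Set (E m)} (f : E m → ℝ) (hK : tsupport f ⊆ K)
    (x : E m) (hx : x ∉ Metric.cthickening h K) : av h f x = 0 := by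
  unfold av
  have : ∫ z in Metric.ball (0 : E m) h, f (x + z) = ∫ z in Metric.ball (0 : E m) h, (0 : ℝ) := by
    refine setIntegral_congr_fun measurableSet_ball fun z hz => ?_
    by_contra hne
    apply hx
    have h1 : x + z ∈ K := hK (subset_tsupport f hne)
    refine Metric.mem_cthickening_of_dist_le x (x + z) h K h1 ?_
    rw [mem_ball_zero_iff] at hz
    simpa [dist_eq_norm] using hz.le
  rw [this]
  simp

end R1

open R1 in
/-- R1: Rellich in `ℝ^m`. -/
theorem rellich_euclid {m : ℕ} {K : Set (E m)} (hK : IsCompact K) (C : ℝ) {ε : ℝ} (hε : 0 < ε) :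
    ∃ T : Set (E m → ℝ), T.Finite ∧
      ∀ f : E m → ℝ, ContDiff ℝ 1 f → tsupport f ⊆ K → (∫ x, f x ^ 2) ≤ C →
        (∫ x, ‖fderiv ℝ f x‖ ^ 2) ≤ C → ∃ t ∈ T, MemLp t 2 volume ∧ (∫ x, (f x - t x) ^ 2) ≤ ε := by
  rcases lt_or_ge C 0 with hC | hC
  · refine ⟨∅, Set.finite_empty, ?_⟩
    intro f _ _ h1 _
    have : 0 ≤ ∫ x, f x ^ 2 := integral_nonneg fun x => sq_nonneg _
    linarith
  -- parameters
  obtain ⟨h, hh, hh2⟩ : ∃ h : ℝ, 0 < h ∧ 2 * (h ^ 2 * C) ≤ ε / 2 := by
    refine ⟨√(ε / (4 * (C + 1))), by positivity, ?_⟩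
    rw [Real.sq_sqrt (by positivity)]
    have h1 : C / (C + 1) ≤ 1 := by rw [div_le_one (by positivity)]; linarith
    calc 2 * (ε / (4 * (C + 1)) * C) = ε / 2 * (C / (C + 1)) := by field_simp; norm_num
      _ ≤ ε / 2 * 1 := by gcongr
      _ = ε / 2 := mul_one _
  set v := volume.real (Metric.ball (0 : E m) h) with hvdef
  have hv : 0 < v := vpos hh
  set K' := Metric.cthickening h K with hK'
  have hK'c : IsCompact K' := hK.cthickening
  set w := volume.real K' with hw
  have hw0 : 0 ≤ w := measureReal_nonneg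
  obtain ⟨δ, hδ, hδ2⟩ : ∃ δ : ℝ, 0 < δ ∧ 8 * δ ^ 2 * w ≤ ε / 2 := by
    refine ⟨√(ε / (16 * (w + 1))), by positivity, ?_⟩
    rw [Real.sq_sqrt (by positivity)]
    have h1 : w / (w + 1) ≤ 1 := by rw [div_le_one (by positivity)]; linarith
    calc 8 * (ε / (16 * (w + 1))) * w = ε / 2 * (w / (w + 1)) := by field_simp; ring
      _ ≤ ε / 2 * 1 := by gcongr
      _ = ε / 2 := mul_one _
  obtain ⟨r, hr, hr2⟩ : ∃ r : ℝ, 0 < r ∧ v⁻¹ * (r ^ 2 * C) ≤ δ ^ 2 := by
    refine ⟨√(δ ^ 2 * v / (C + 1)), by positivity, ?_⟩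
    rw [Real.sq_sqrt (by positivity)]
    have h1 : C / (C + 1) ≤ 1 := by rw [div_le_one (by positivity)]; linarith
    calc v⁻¹ * (δ ^ 2 * v / (C + 1) * C) = δ ^ 2 * (C / (C + 1)) := by field_simp
      _ ≤ δ ^ 2 * 1 := by gcongr
      _ = δ ^ 2 := mul_one _
  set A := √(v⁻¹ * C) with hA
  have hA0 : 0 ≤ A := Real.sqrt_nonneg _
  obtain ⟨R, hR⟩ := exists_nat_ge (A / δ + 1)
  -- the net
  obtain ⟨t, _, htf, htc⟩ := hK'c.finite_cover_balls hr
  set e : ℕ → E m := fun k => htf.toFinset.toList.getD k 0 with he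
  set N := htf.toFinset.toList.length with hN
  have hnet : ∀ x ∈ K', ‖x - e (SimpleFunc.nearestPtInd e N x)‖ ≤ r := by
    intro x hx
    obtain ⟨c, hc, hxc⟩ := mem_iUnion₂.mp (htc hx)
    have hc' : c ∈ htf.toFinset.toList := by simpa using hc
    obtain ⟨k, hk, hkc⟩ := List.getElem_of_mem hc'
    have hek : e k = c := by
      rw [he]
      simp only
      rw [List.getD_eq_getElem _ _ hk, hkc]
    have h1 := SimpleFunc.edist_nearestPt_le e x (k := k) (N := N) hk.le
    rw [hek] at h1
    have h2 : edist (e (SimpleFunc.nearestPtInd e N x)) x ≤ edist c x := h1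
    rw [edist_dist, edist_dist] at h2
    have h3 := (ENNReal.ofReal_le_ofReal_iff dist_nonneg).mp h2
    rw [Metric.mem_ball, dist_comm] at hxc
    rw [← dist_eq_norm, dist_comm]
    linarith
  set τ : (Fin (N + 1) → Fin (2 * R + 1)) → E m → ℝ := fun u => K'.indicator fun x =>
    δ * ((u (Fin.ofNat (N + 1) (SimpleFunc.nearestPtInd e N x)) : ℕ) : ℝ) - δ * R with hτ
  refine ⟨Set.range τ, Set.finite_range τ, ?_⟩
  intro f hf hfK hf2 hfd
  have hs : HasCompactSupport f := hK.of_isClosed_subset (isClosed_tsupport f) hfK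
  have hfc := hf.continuous
  -- the rounded averages
  set u : Fin (N + 1) → Fin (2 * R + 1) := fun i =>
    Fin.ofNat (2 * R + 1) (⌊av h f (e i) / δ⌋ + R).toNat with hu
  have hround : ∀ i : Fin (N + 1),
      |av h f (e i) - (δ * ((u i : ℕ) : ℝ) - δ * R)| ≤ δ := by
    intro i
    set a := av h f (e i) with ha
    have ha1 : |a| ≤ A := by
      rw [hA]
      refine Real.abs_le_sqrt ?_
      refine (av_bound hh f hfc hs (e i)).trans ?_
      exact mul_le_mul_of_nonneg_left hf2 (by positivity)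
    have ha2 := abs_le.mp ha1
    have ha3 : a / δ ≤ A / δ := by gcongr; exact ha2.2
    have ha4 : -(A / δ) ≤ a / δ := by
      rw [← neg_div]; gcongr; exact ha2.1
    have f1 := Int.floor_le (a / δ)
    have f2 := Int.lt_floor_add_one (a / δ)
    have f3 : (0 : ℤ) ≤ ⌊a / δ⌋ + R := by
      have : (-1 : ℝ) < ((⌊a / δ⌋ + R : ℤ) : ℝ) := by push_cast; linarith
      have : (-1 : ℤ) < ⌊a / δ⌋ + R := by exact_mod_cast this
      omega
    have f4 : ⌊a / δ⌋ + R < 2 * R + 1 := by
      have : ((⌊a / δ⌋ + R : ℤ) : ℝ) < ((2 * R + 1 : ℤ) : ℝ) := by push_cast; linarith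
      exact_mod_cast this
    have f5 : (((u i : ℕ) : ℤ)) = ⌊a / δ⌋ + R := by
      rw [hu]
      simp only [Fin.val_ofNat]
      rw [← ha]
      rw [Nat.mod_eq_of_lt (by omega), Int.toNat_of_nonneg f3]
    have f6 : ((u i : ℕ) : ℝ) = (⌊a / δ⌋ : ℝ) + R := by
      have : (((u i : ℕ) : ℤ) : ℝ) = ((⌊a / δ⌋ + R : ℤ) : ℝ) := by rw [f5]
      push_cast at this
      exact this
    rw [f6]
    have f7 : a = δ * (a / δ) := by field_simp
    have f8 : a - (δ * ((⌊a / δ⌋ : ℝ) + R) - δ * R) = δ * (a / δ - ⌊a / δ⌋) := by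
      rw [mul_sub, ← f7]; ring
    rw [f8, abs_mul, abs_of_pos hδ]
    have f9 : |a / δ - ⌊a / δ⌋| ≤ 1 := by rw [abs_le]; constructor <;> linarith
    calc δ * |a / δ - ⌊a / δ⌋| ≤ δ * 1 := by gcongr
      _ = δ := mul_one _
  have hpt : ∀ x, (av h f x - τ u x) ^ 2 ≤ K'.indicator (fun _ => 4 * δ ^ 2) x := by
    intro x
    by_cases hx : x ∈ K'
    · have h1 := hnet x hx
      have hind : ((Fin.ofNat (N + 1) (SimpleFunc.nearestPtInd e N x) : Fin (N + 1)) : ℕ)
          = SimpleFunc.nearestPtInd e N x := by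
        rw [Fin.val_ofNat]
        exact Nat.mod_eq_of_lt (Nat.lt_succ_of_le (SimpleFunc.nearestPtInd_le e N x))
      have h2 := hround (Fin.ofNat (N + 1) (SimpleFunc.nearestPtInd e N x))
      rw [hind] at h2
      rw [hτ]
      simp only [indicator_of_mem hx]
      have h3 : (av h f x - av h f (e (SimpleFunc.nearestPtInd e N x))) ^ 2 ≤ δ ^ 2 := by
        refine (av_lip hh f hf hs _ _).trans (le_trans ?_ hr2)
        gcongr
      have h4 : |av h f x - av h f (e (SimpleFunc.nearestPtInd e N x))| ≤ δ :=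
        abs_le_of_sq_le_sq h3 hδ.le
      set q := (δ * ((u (Fin.ofNat (N + 1) (SimpleFunc.nearestPtInd e N x)) : ℕ) : ℝ) - δ * R)
      have h5 : |av h f x - q| ≤ 2 * δ := by
        have := abs_sub_le (av h f x) (av h f (e (SimpleFunc.nearestPtInd e N x))) q
        linarith
      have h6 : (av h f x - q) ^ 2 ≤ (2 * δ) ^ 2 := by
        rw [← sq_abs]; exact pow_le_pow_left₀ (abs_nonneg _) h5 2
      linarith
    · have h1 := av_eq_zero f hfK x hx
      rw [hτ]
      simp only [indicator_of_notMem hx]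
      rw [h1]; simp
  have hmeas : Measurable (τ u) := by
    refine Measurable.indicator ?_ hK'c.measurableSet
    refine Measurable.sub_const (Measurable.const_mul ?_ _) _
    have h1 : Measurable fun n : ℕ => ((u (Fin.ofNat (N + 1) n) : ℕ) : ℝ) := measurable_from_top
    exact h1.comp (SimpleFunc.nearestPtInd e N).measurable
  refine ⟨τ u, ⟨u, rfl⟩, ?_, ?_⟩
  · rw [hτ]
    simp only
    rw [memLp_indicator_iff_restrict hK'c.measurableSet]
    have : IsFiniteMeasure (volume.restrict K') :=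
      ⟨by rw [Measure.restrict_apply_univ]; exact hK'c.measure_lt_top⟩
    refine MemLp.of_bound ?_ (δ * (2 * R + 1) + δ * R) (ae_of_all _ fun x => ?_)
    · refine Measurable.aestronglyMeasurable ?_
      refine Measurable.sub_const (Measurable.const_mul ?_ _) _
      have h1 : Measurable fun n : ℕ => ((u (Fin.ofNat (N + 1) n) : ℕ) : ℝ) := measurable_from_top
      exact h1.comp (SimpleFunc.nearestPtInd e N).measurable
    · set k := u (Fin.ofNat (N + 1) (SimpleFunc.nearestPtInd e N x))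
      have h1 : ((k : ℕ) : ℝ) ≤ 2 * R + 1 := by
        have := k.isLt
        exact_mod_cast this.le
      have h2 : (0 : ℝ) ≤ ((k : ℕ) : ℝ) := Nat.cast_nonneg _
      have h3 : (0 : ℝ) ≤ R := Nat.cast_nonneg _
      rw [Real.norm_eq_abs, abs_le]
      constructor
      · nlinarith
      · nlinarith
  · have hmf : AEStronglyMeasurable (fun x => (f x - τ u x) ^ 2) volume :=
      ((hfc.measurable.sub hmeas).pow_const 2).aestronglyMeasurable
    rw [integral_eq_lintegral_of_nonneg_ae (ae_of_all _ fun t => by positivity) hmf]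
    refine ENNReal.toReal_le_of_le_ofReal hε.le ?_
    have hDC : ∫⁻ x, ENNReal.ofReal (‖fderiv ℝ f x‖ ^ 2) ≤ ENNReal.ofReal C := by
      rw [← ofReal_integral_eq_lintegral_ofReal (fderiv_sq_integrable f hf hs)
        (ae_of_all _ fun t => by positivity)]
      exact ENNReal.ofReal_le_ofReal hfd
    calc ∫⁻ x, ENNReal.ofReal ((f x - τ u x) ^ 2)
        ≤ ∫⁻ x, (ENNReal.ofReal 2 * ENNReal.ofReal ((f x - av h f x) ^ 2)
          + K'.indicator (fun _ => ENNReal.ofReal (8 * δ ^ 2)) x) := by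
          refine lintegral_mono fun x => ?_
          have h1 := hpt x
          have h2 : (f x - τ u x) ^ 2 ≤ 2 * (f x - av h f x) ^ 2
              + 2 * (av h f x - τ u x) ^ 2 := by
            nlinarith [sq_nonneg ((f x - av h f x) - (av h f x - τ u x))]
          have h3 : K'.indicator (fun _ => ENNReal.ofReal (8 * δ ^ 2)) x
              = ENNReal.ofReal (2 * K'.indicator (fun _ => 4 * δ ^ 2) x) := by
            by_cases hx : x ∈ K'
            · simp only [indicator_of_mem hx]; ring_nf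
            · simp only [indicator_of_notMem hx]; simp
          rw [h3, ← ENNReal.ofReal_mul (by norm_num), ← ENNReal.ofReal_add (by positivity)]
          · exact ENNReal.ofReal_le_ofReal (by linarith)
          · exact mul_nonneg (by norm_num) (indicator_nonneg (fun _ _ => by positivity) x)
      _ = ENNReal.ofReal 2 * (∫⁻ x, ENNReal.ofReal ((f x - av h f x) ^ 2))
          + ENNReal.ofReal (8 * δ ^ 2) * volume K' := by
          rw [lintegral_add_right _ (measurable_const.indicator hK'c.measurableSet),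
            lintegral_const_mul' _ _ ENNReal.ofReal_ne_top,
            lintegral_indicator_const hK'c.measurableSet]
      _ ≤ ENNReal.ofReal 2 * (ENNReal.ofReal (h ^ 2) * ENNReal.ofReal C)
          + ENNReal.ofReal (8 * δ ^ 2) * ENNReal.ofReal w := by
          refine add_le_add ?_ ?_
          · exact mul_le_mul' (le_refl _) ((lintegral_sub_av hh f hf).trans
              (mul_le_mul' (le_refl _) hDC))
          · rw [hw, Measure.real, ENNReal.ofReal_toReal hK'c.measure_lt_top.ne]
      _ = ENNReal.ofReal (2 * (h ^ 2 * C) + 8 * δ ^ 2 * w) := by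
          rw [← ENNReal.ofReal_mul (by positivity), ← ENNReal.ofReal_mul (by norm_num),
            ← ENNReal.ofReal_mul (by positivity), ← ENNReal.ofReal_add (by positivity)
            (by positivity)]
      _ ≤ ENNReal.ofReal ε := ENNReal.ofReal_le_ofReal (by linarith)

end Pool.Agent.helper43.MS
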